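/-
Problem MP_d4d493_al, Q1 (residual finite dimensionality of Lie algebras which are nilpotent of
index 2): the answer is no, over every field.

Let `K` be a field, `A = K(x_n : n ∈ ℤ)` the field of rational functions and `s` the automorphism
of `A` over `K` with `s x_n = x_{n+1}`.  On `L = A × A` put
`[(f, a), (g, b)] = (0, f s(g) - s(f) g)`.
Then `L` is nilpotent of index 2, its centre is `0 × A`, the annihilator of a non-central `(f, a)`
is `K (f, a) + (0 × A)` because the fixed field of `s` is `K`, and every ideal of finite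
codimension contains the centre: for `g` in the projection `R` of the ideal `I` and `f` in `A` we
have `f s(g) - s(f) g ∈ J = {a : (0, a) ∈ I}`; using this for `x s(g₁), g₂` and for `x s(g₂), g₁`
we get `s(x) (s²(g₁) g₂ - s²(g₂) g₁) ∈ J` for all `x`, and the second factor is nonzero for some
`g₁, g₂ ∈ R`, so that `J = A`.
-/
import Mathlib

set_option autoImplicit false

namespace Pool.Agent.Results.MP_d4d493_al.ShiftCounterexample

universe u

/-! ### The notions of the problem -/

/-- `L` is nilpotent of index 2: `[[x, y], z] = 0` for all `x, y, z`. -/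
def NilpotentIndexTwo (L : Type u) [LieRing L] : Prop :=
  ∀ x y z : L, ⁅⁅x, y⁆, z⁆ = 0

/-- the centre `Z(L) = {z : [z, x] = 0 for all x}` -/
def centre (K : Type u) (L : Type u) [Field K] [LieRing L] [LieAlgebra K L] : Submodule K L where
  carrier := {z | ∀ x : L, ⁅z, x⁆ = 0}
  add_mem' := fun {a b} ha hb x => by rw [add_lie, ha x, hb x, add_zero]
  zero_mem' := fun x => zero_lie x
  smul_mem' := fun c z hz x => by rw [smul_lie, hz x, smul_zero]

/-- the annihilator (centralizer) `C_L(x) = {y : [x, y] = 0}` -/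
def annihilator (K : Type u) (L : Type u) [Field K] [LieRing L] [LieAlgebra K L] (x : L) :
    Submodule K L where
  carrier := {y | ⁅x, y⁆ = 0}
  add_mem' := fun {a b} ha hb => by
    show ⁅x, a + b⁆ = 0
    rw [lie_add, show ⁅x, a⁆ = 0 from ha, show ⁅x, b⁆ = 0 from hb, add_zero]
  zero_mem' := lie_zero x
  smul_mem' := fun c y hy => by
    show ⁅x, c • y⁆ = 0
    rw [lie_smul, show ⁅x, y⁆ = 0 from hy, smul_zero]

/-- the quotient space `C_L(x) / Z(L)` -/
abbrev annihilatorModCentre (K : Type u) (L : Type u) [Field K] [LieRing L] [LieAlgebra K L]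
    (x : L) : Type u :=
  annihilator K L x ⧸ (centre K L).submoduleOf (annihilator K L x)

/-- `L` is residually finite dimensional: each nonzero element is outside of some ideal of finite
codimension. -/
def ResiduallyFiniteDimensional (K : Type u) (L : Type u) [Field K] [LieRing L]
    [LieAlgebra K L] : Prop :=
  ∀ x : L, x ≠ 0 →
    ∃ I : LieIdeal K L, FiniteDimensional K (L ⧸ (I : Submodule K L)) ∧ x ∉ I

/-! ### The field with its automorphism -/

section Fields

variable (K : Type u) [Field K]

/-- polynomials in the variables `x_n`, `n ∈ ℤ` -/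
abbrev P : Type u := MvPolynomial ℤ K

/-- rational functions in the variables `x_n`, `n ∈ ℤ` -/
abbrev A : Type u := FractionRing (P K)

/-- the automorphism `x_n ↦ x_{n+d}` of the polynomial ring -/
noncomputable def shP (d : ℤ) : P K ≃ₐ[K] P K :=
  MvPolynomial.renameEquiv K (Equiv.addRight d)

/-- the automorphism `x_n ↦ x_{n+d}` of the field of rational functions -/
noncomputable def sh (d : ℤ) : A K ≃ₐ[K] A K :=
  IsFractionRing.algEquivOfAlgEquiv (shP K d)

variable {K}

theorem sh_algebraMap (d : ℤ) (a : P K) :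
    sh K d (algebraMap (P K) (A K) a) = algebraMap (P K) (A K) (shP K d a) :=
  IsFractionRing.algEquivOfAlgEquiv_algebraMap (shP K d) a

theorem shP_shP (d e : ℤ) (a : P K) : shP K d (shP K e a) = shP K (e + d) a := by
  simp only [shP, MvPolynomial.renameEquiv_apply, MvPolynomial.rename_rename]
  congr 2
  funext n
  simp [add_assoc]

theorem sh_sh (d e : ℤ) (u : A K) : sh K d (sh K e u) = sh K (e + d) u := by
  obtain ⟨a, b, -, rfl⟩ := IsFractionRing.div_surjective (P K) u
  simp only [map_div₀, sh_algebraMap, shP_shP]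

/-- A polynomial which divides its shift is constant. -/
theorem const_of_dvd (d : ℤ) (hd : 0 < d) (a : P K) (ha : a ≠ 0) (h : a ∣ shP K d a) :
    ∃ c : K, a = MvPolynomial.C c := by
  by_cases hv : a.vars = ∅
  · exact ⟨_, MvPolynomial.vars_eq_empty_iff_eq_C.mp hv⟩
  · exfalso
    obtain ⟨q, hq⟩ := h
    have hne : a.vars.Nonempty := Finset.nonempty_iff_ne_empty.mpr hv
    have hsh : shP K d a ≠ 0 := by
      intro h0
      exact ha ((shP K d).injective (by rw [h0, map_zero]))
    have hq0 : q ≠ 0 := by
      rintro rfl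
      exact hsh (by rw [hq, mul_zero])
    have hm := Finset.min'_mem a.vars hne
    have h1 : MvPolynomial.degreeOf (a.vars.min' hne) (shP K d a) ≠ 0 := by
      rw [hq, MvPolynomial.degreeOf_mul_eq ha hq0]
      have := MvPolynomial.mem_vars_iff_degreeOf_ne_zero.mp hm
      omega
    have h2 : a.vars.min' hne ∈ (MvPolynomial.rename (Equiv.addRight d) a).vars :=
      MvPolynomial.mem_vars_iff_degreeOf_ne_zero.mpr h1
    obtain ⟨i, hi, hie⟩ := MvPolynomial.mem_vars_rename _ _ h2
    have h3 := Finset.min'_le a.vars i hi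
    simp only [Equiv.coe_addRight] at hie
    omega

/-- The fixed field of `x_n ↦ x_{n+d}` is `K`. -/
theorem fixed (d : ℤ) (hd : 0 < d) (u : A K) (h : sh K d u = u) :
    ∃ c : K, u = algebraMap K (A K) c := by
  by_cases hu : u = 0
  · exact ⟨0, by rw [hu, map_zero]⟩
  obtain ⟨a, b, hab, rfl⟩ := IsFractionRing.exists_reduced_fraction (P K) u
  have hb : (b : P K) ≠ 0 := nonZeroDivisors.coe_ne_zero b
  have hinj : Function.Injective (algebraMap (P K) (A K)) :=
    IsFractionRing.injective (P K) (A K)
  have hb' : algebraMap (P K) (A K) b ≠ 0 := fun h0 => hb (hinj (by rw [h0, map_zero]))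
  have ha : a ≠ 0 := by
    rintro rfl
    exact hu (IsLocalization.mk'_zero _)
  have hsb : shP K d b ≠ 0 := fun h0 => hb ((shP K d).injective (by rw [h0, map_zero]))
  have hsb' : algebraMap (P K) (A K) (shP K d b) ≠ 0 := fun h0 => hsb (hinj (by rw [h0, map_zero]))
  rw [IsFractionRing.mk'_eq_div, map_div₀, sh_algebraMap, sh_algebraMap,
    div_eq_div_iff hsb' hb', ← map_mul, ← map_mul] at h
  have h1 : shP K d a * b = a * shP K d b := hinj h
  have h2 : a ∣ shP K d a := hab.dvd_of_dvd_mul_right ⟨shP K d b, h1⟩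
  have h3 : (b : P K) ∣ shP K d b :=
    hab.symm.dvd_of_dvd_mul_left ⟨shP K d a, by rw [← h1, mul_comm]⟩
  obtain ⟨c, hc⟩ := const_of_dvd d hd a ha h2
  obtain ⟨e, he⟩ := const_of_dvd d hd (b : P K) hb h3
  refine ⟨c / e, ?_⟩
  rw [IsFractionRing.mk'_eq_div, hc, he, map_div₀]
  rfl

variable (K) in
/-- the automorphism `s` of `A` with `s x_n = x_{n+1}` -/
noncomputable def s : A K ≃ₐ[K] A K := sh K 1

theorem fixed_of_s (f : A K) (h : s K f = f) : ∃ c : K, f = c • (1 : A K) := by
  obtain ⟨c, hc⟩ := fixed 1 one_pos f h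
  exact ⟨c, by rw [hc, Algebra.algebraMap_eq_smul_one]⟩

theorem fixed_of_ss (f : A K) (h : s K (s K f) = f) : ∃ c : K, f = c • (1 : A K) := by
  have h1 : sh K (1 + 1) f = f := by
    rw [← sh_sh]; exact h
  obtain ⟨c, hc⟩ := fixed (1 + 1) (by norm_num) f h1
  exact ⟨c, by rw [hc, Algebra.algebraMap_eq_smul_one]⟩

theorem exists_not_fixed : ∃ g : A K, s K g ≠ g := by
  refine ⟨algebraMap (P K) (A K) (MvPolynomial.X 0), ?_⟩
  intro h
  have h1 : algebraMap (P K) (A K) (shP K 1 (MvPolynomial.X 0)) =
      algebraMap (P K) (A K) (MvPolynomial.X 0) := by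
    rw [← sh_algebraMap]; exact h
  have h2 := IsFractionRing.injective (P K) (A K) h1
  simp only [shP, MvPolynomial.renameEquiv_apply, MvPolynomial.rename_X] at h2
  have h3 := MvPolynomial.X_injective h2
  simp at h3

theorem not_finite : ¬ FiniteDimensional K (A K) := by
  intro hfin
  have h1 : LinearIndependent K
      (fun n : ℤ => (IsScalarTower.toAlgHom K (P K) (A K)).toLinearMap (MvPolynomial.X n)) := by
    refine LinearIndependent.map' (MvPolynomial.linearIndependent_X ℤ K) _ ?_
    rw [LinearMap.ker_eq_bot]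
    exact IsFractionRing.injective (P K) (A K)
  exact Module.Finite.not_linearIndependent_of_infinite _ h1

theorem ratio {f g : A K} (hf : f ≠ 0) (h : s K (s K g) * f = s K (s K f) * g) :
    ∃ c : K, g = c • f := by
  have hsf : s K (s K f) ≠ 0 := by
    intro h0
    exact hf ((s K).injective ((s K).injective (by rw [h0, map_zero, map_zero])))
  obtain ⟨c, hc⟩ := fixed_of_ss (g / f) (by
    rw [map_div₀, map_div₀]
    rw [div_eq_div_iff hsf hf, h]
    ring)
  refine ⟨c, ?_⟩
  rw [div_eq_iff hf] at hc
  rw [hc, smul_mul_assoc, one_mul]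

theorem ratio1 {f g : A K} (hf : f ≠ 0) (h : f * s K g - s K f * g = 0) :
    ∃ c : K, g = c • f := by
  have hsf : s K f ≠ 0 := by
    intro h0
    exact hf ((s K).injective (by rw [h0, map_zero]))
  obtain ⟨c, hc⟩ := fixed_of_s (g / f) (by
    rw [map_div₀, div_eq_div_iff hsf hf]
    linear_combination h)
  refine ⟨c, ?_⟩
  rw [div_eq_iff hf] at hc
  rw [hc, smul_mul_assoc, one_mul]

end Fields

/-! ### The Lie algebra -/

/-- The Lie algebra `L = A × A`, with bracket `[(f,a),(g,b)] = (0, f s(g) - s(f) g)`. -/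
@[ext] structure Ex (K : Type u) [Field K] : Type u where
  /-- first component -/
  fst : A K
  /-- second component -/
  snd : A K

namespace Ex

variable {K : Type u} [Field K]

/-- the bijection with the product -/
noncomputable def equiv : Ex K ≃ A K × A K where
  toFun := fun x => (x.fst, x.snd)
  invFun := fun x => ⟨x.1, x.2⟩
  left_inv := fun _ => rfl
  right_inv := fun _ => rfl

noncomputable instance : AddCommGroup (Ex K) := equiv.addCommGroup
noncomputable instance : Module K (Ex K) := equiv.module K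

theorem add_fst (x y : Ex K) : (x + y).fst = x.fst + y.fst := rfl
theorem add_snd (x y : Ex K) : (x + y).snd = x.snd + y.snd := rfl
theorem zero_fst : (0 : Ex K).fst = 0 := rfl
theorem zero_snd : (0 : Ex K).snd = 0 := rfl
theorem sub_fst (x y : Ex K) : (x - y).fst = x.fst - y.fst := rfl
theorem sub_snd (x y : Ex K) : (x - y).snd = x.snd - y.snd := rfl
theorem smul_fst (c : K) (x : Ex K) : (c • x).fst = c • x.fst := rfl
theorem smul_snd (c : K) (x : Ex K) : (c • x).snd = c • x.snd := rfl

noncomputable instance : Bracket (Ex K) (Ex K) where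
  bracket := fun x y => ⟨0, x.fst * s K y.fst - s K x.fst * y.fst⟩

theorem bracket_fst (x y : Ex K) : (⁅x, y⁆ : Ex K).fst = 0 := rfl
theorem bracket_snd (x y : Ex K) :
    (⁅x, y⁆ : Ex K).snd = x.fst * s K y.fst - s K x.fst * y.fst := rfl

noncomputable instance : LieRing (Ex K) where
  add_lie := fun x y z => by
    ext1
    · simp [bracket_fst, add_fst]
    · simp only [bracket_snd, add_fst, add_snd, map_add]; ring
  lie_add := fun x y z => by
    ext1
    · simp [bracket_fst, add_fst]
    · simp only [bracket_snd, add_fst, add_snd, map_add]; ring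
  lie_self := fun x => by
    ext1
    · simp [bracket_fst, zero_fst]
    · simp only [bracket_snd, zero_snd]; ring
  leibniz_lie := fun x y z => by
    ext1
    · simp [bracket_fst, add_fst]
    · simp only [bracket_snd, bracket_fst, add_snd, map_zero]; ring

noncomputable instance : LieAlgebra K (Ex K) where
  lie_smul := fun c x y => by
    ext1
    · simp [bracket_fst, smul_fst]
    · simp only [bracket_snd, smul_fst, smul_snd, map_smul, smul_sub]
      rw [mul_smul_comm, mul_smul_comm]

/-- first projection as a linear map -/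
noncomputable def fstL : Ex K →ₗ[K] A K where
  toFun := fun x => x.fst
  map_add' := fun _ _ => rfl
  map_smul' := fun _ _ => rfl

/-- the linear map `a ↦ (0, a)` -/
noncomputable def inr : A K →ₗ[K] Ex K where
  toFun := fun a => ⟨0, a⟩
  map_add' := fun a b => by ext1 <;> simp [add_fst, add_snd]
  map_smul' := fun c a => by ext1 <;> simp [smul_fst, smul_snd]

theorem triple (x y z : Ex K) : ⁅⁅x, y⁆, z⁆ = 0 := by
  ext1
  · rfl
  · rw [bracket_snd, bracket_fst, zero_snd, map_zero, zero_mul, zero_mul, sub_zero]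

theorem mem_centre (x : Ex K) : x ∈ centre K (Ex K) ↔ x.fst = 0 := by
  constructor
  · intro h
    by_contra hne
    have h' : ∀ g : A K, x.fst * s K g - s K x.fst * g = 0 := fun g => congrArg snd (h ⟨g, 0⟩)
    have h1 := h' 1
    rw [map_one, mul_one, mul_one, sub_eq_zero] at h1
    obtain ⟨g, hg⟩ := exists_not_fixed (K := K)
    apply hg
    have h2 := h' g
    rw [← h1, ← mul_sub] at h2
    exact sub_eq_zero.mp ((mul_eq_zero.mp h2).resolve_left hne)
  · intro h y
    ext1
    · rfl
    · simp [bracket_snd, zero_snd, h]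

theorem key (I : LieIdeal K (Ex K)) (hI : FiniteDimensional K (Ex K ⧸ (I : Submodule K (Ex K))))
    (y : A K) : (⟨0, y⟩ : Ex K) ∈ I := by
  -- relation (*)
  have hstar : ∀ (f : A K) (g : Ex K), g ∈ I →
      (⟨0, f * s K g.fst - s K f * g.fst⟩ : Ex K) ∈ I := by
    intro f g hg
    exact lie_mem_right K (Ex K) I ⟨f, 0⟩ g hg
  have hrel : ∀ (x : A K) (g₁ g₂ : Ex K), g₁ ∈ I → g₂ ∈ I →
      (⟨0, s K x * (s K (s K g₁.fst) * g₂.fst - s K (s K g₂.fst) * g₁.fst)⟩ : Ex K) ∈ I := by
    intro x g₁ g₂ h₁ h₂
    have e1 := hstar (x * s K g₁.fst) g₂ h₂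
    have e2 := hstar (x * s K g₂.fst) g₁ h₁
    have e3 := I.sub_mem e2 e1
    have e4 : (⟨0, s K x * (s K (s K g₁.fst) * g₂.fst - s K (s K g₂.fst) * g₁.fst)⟩ : Ex K) =
        ⟨0, x * s K g₂.fst * s K g₁.fst - s K (x * s K g₂.fst) * g₁.fst⟩ -
        ⟨0, x * s K g₁.fst * s K g₂.fst - s K (x * s K g₁.fst) * g₂.fst⟩ := by
      ext1
      · rw [sub_fst]; simp
      · rw [sub_snd]
        simp only [map_mul]
        ring
    rw [e4]
    exact e3
  -- find `g₁, g₂` in `I` with nonzero determinant
  obtain ⟨g₁, g₂, h₁, h₂, hD⟩ : ∃ g₁ g₂ : Ex K, g₁ ∈ I ∧ g₂ ∈ I ∧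
      s K (s K g₁.fst) * g₂.fst - s K (s K g₂.fst) * g₁.fst ≠ 0 := by
    by_contra hcon
    push Not at hcon
    -- the projection of `I` to `A`
    let R : Submodule K (A K) := Submodule.map fstL (I : Submodule K (Ex K))
    have hR : ∃ g : A K, R ≤ Submodule.span K {g} := by
      by_cases h0 : ∃ g₂ : Ex K, g₂ ∈ I ∧ g₂.fst ≠ 0
      · obtain ⟨g₂, h₂, hne⟩ := h0
        refine ⟨g₂.fst, ?_⟩
        rintro _ ⟨g₁, h₁, rfl⟩
        have := hcon g₁ g₂ h₁ h₂
        obtain ⟨c, hc⟩ := ratio hne (sub_eq_zero.mp this)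
        rw [Submodule.mem_span_singleton]
        exact ⟨c, hc.symm⟩
      · push Not at h0
        refine ⟨0, ?_⟩
        rintro _ ⟨g₁, h₁, rfl⟩
        have : fstL g₁ = 0 := h0 g₁ h₁
        rw [this]
        exact Submodule.zero_mem _
    obtain ⟨g, hg⟩ := hR
    have : FiniteDimensional K R := Submodule.finiteDimensional_of_le hg
    have : FiniteDimensional K (A K ⧸ R) := by
      have hs : Function.Surjective
          (Submodule.mapQ (I : Submodule K (Ex K)) R fstL (Submodule.le_comap_map _ _)) := by
        intro q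
        obtain ⟨a, rfl⟩ := Submodule.Quotient.mk_surjective R q
        exact ⟨Submodule.Quotient.mk (⟨a, 0⟩ : Ex K), rfl⟩
      exact Module.Finite.of_surjective _ hs
    have : FiniteDimensional K (A K) := Module.Finite.of_submodule_quotient R
    exact not_finite this
  obtain ⟨x, hx⟩ := (s K).surjective
    (y / (s K (s K g₁.fst) * g₂.fst - s K (s K g₂.fst) * g₁.fst))
  have h3 := hrel x g₁ g₂ h₁ h₂
  rw [hx, div_mul_cancel₀ _ hD] at h3
  exact h3

theorem finrank_eq (x : Ex K) (hx : x ∉ centre K (Ex K)) :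
    Module.finrank K (annihilatorModCentre K (Ex K) x) = 1 := by
  have hxf : x.fst ≠ 0 := fun h => hx ((mem_centre x).mpr h)
  have hxx : x ∈ annihilator K (Ex K) x := lie_self x
  refine finrank_eq_one (Submodule.Quotient.mk ⟨x, hxx⟩) ?_ ?_
  · intro h
    rw [Submodule.Quotient.mk_eq_zero] at h
    exact hx h
  · intro w
    obtain ⟨⟨y, hy⟩, rfl⟩ := Submodule.Quotient.mk_surjective _ w
    have h1 : x.fst * s K y.fst - s K x.fst * y.fst = 0 := congrArg Ex.snd hy
    obtain ⟨c, hc⟩ := ratio1 hxf h1
    refine ⟨c, ?_⟩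
    rw [← Submodule.Quotient.mk_smul, Submodule.Quotient.eq]
    show c • x - y ∈ centre K (Ex K)
    rw [mem_centre, sub_fst, smul_fst, hc, sub_self]

end Ex

/-- Over every field `K` (in particular over every algebraically closed field of any
characteristic) there is a Lie algebra `L` which is nilpotent of index 2 and in which
`C_L(x) / Z(L)` has dimension exactly one for every non-central `x` (and there are non-central
elements), but such that every ideal of finite codimension contains the centre `Z(L)`, which is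
infinite dimensional; so `L` is not residually finite dimensional. -/
theorem result (K : Type u) [Field K] :
    ∃ (L : Type u) (_ : LieRing L) (_ : LieAlgebra K L),
      NilpotentIndexTwo L ∧
      (∃ x : L, x ∉ centre K L) ∧
      (∀ x : L, x ∉ centre K L → Module.finrank K (annihilatorModCentre K L x) = 1) ∧
      (∀ x : L, x ∉ centre K L → FiniteDimensional K (annihilatorModCentre K L x)) ∧
      ¬ FiniteDimensional K (centre K L) ∧
      (∀ I : LieIdeal K L, FiniteDimensional K (L ⧸ (I : Submodule K L)) →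
        centre K L ≤ (I : Submodule K L)) ∧
      ¬ ResiduallyFiniteDimensional K L := by
  have hkey : ∀ I : LieIdeal K (Ex K),
      FiniteDimensional K (Ex K ⧸ (I : Submodule K (Ex K))) →
        centre K (Ex K) ≤ (I : Submodule K (Ex K)) := by
    intro I hI x hx
    have h1 := Ex.key I hI x.snd
    have h2 : (⟨0, x.snd⟩ : Ex K) = x := by
      ext1
      · exact ((Ex.mem_centre x).mp hx).symm
      · rfl
    rw [h2] at h1
    exact h1
  refine ⟨Ex K, inferInstance, inferInstance, Ex.triple, ⟨⟨1, 0⟩, ?_⟩, Ex.finrank_eq,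
    fun x hx => Module.finite_of_finrank_eq_succ (Ex.finrank_eq x hx), ?_, hkey, ?_⟩
  · intro h
    exact one_ne_zero ((Ex.mem_centre _).mp h)
  · intro hfin
    apply not_finite (K := K)
    refine Module.Finite.of_injective
      (Ex.inr.codRestrict (centre K (Ex K)) (fun a => (Ex.mem_centre _).mpr rfl)) ?_
    intro a b hab
    have := congrArg (fun z : centre K (Ex K) => (z : Ex K).snd) hab
    exact this
  · intro H
    obtain ⟨I, hI, hx⟩ := H ⟨0, 1⟩ (by
      intro h
      exact one_ne_zero (congrArg Ex.snd h))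
    exact hx (hkey I hI ((Ex.mem_centre _).mpr rfl))

end Pool.Agent.Results.MP_d4d493_al.ShiftCounterexample
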